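import Pool.Agent.H.MP_4926dc_gt.Main

namespace Pool.Agent.Results.MP_4926dc_gt.No

open Pool.Agent.H.MP_4926dc_gt

/-- The action is free, properly discontinuous and cocompact. -/
def Crys (G : Subgroup ((Fin 5 → ℝ) ≃ᵃ[ℝ] (Fin 5 → ℝ))) : Prop :=
  (∀ γ ∈ G, ∀ p, γ p = p → γ = 1) ∧
    (∀ K : Set (Fin 5 → ℝ), IsCompact K → {γ | γ ∈ G ∧ (γ '' K ∩ K).Nonempty}.Finite) ∧
    ∃ K : Set (Fin 5 → ℝ), IsCompact K ∧ ∀ p, ∃ γ ∈ G, γ p ∈ K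

/-- Invariant nondegenerate symmetric form. -/
def InvMetric (G : Subgroup ((Fin 5 → ℝ) ≃ᵃ[ℝ] (Fin 5 → ℝ)))
    (g : LinearMap.BilinForm ℝ (Fin 5 → ℝ)) : Prop :=
  (∀ v w, g v w = g w v) ∧ g.Nondegenerate ∧
    ∀ γ ∈ G, ∀ v w, g (γ.linear v) (γ.linear w) = g v w

/-- Invariant nonzero self-adjoint endomorphism of square zero. -/
def InvEnd (G : Subgroup ((Fin 5 → ℝ) ≃ᵃ[ℝ] (Fin 5 → ℝ)))
    (g : LinearMap.BilinForm ℝ (Fin 5 → ℝ)) (A : (Fin 5 → ℝ) →ₗ[ℝ] (Fin 5 → ℝ)) : Prop :=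
  A ≠ 0 ∧ (∀ v w, g (A v) w = g v (A w)) ∧ (∀ v, A (A v) = 0) ∧
    ∀ γ ∈ G, ∀ v, A (γ.linear v) = γ.linear (A v)

/-- Invariant parallel light-like vector field. -/
def ParNull (G : Subgroup ((Fin 5 → ℝ) ≃ᵃ[ℝ] (Fin 5 → ℝ)))
    (g : LinearMap.BilinForm ℝ (Fin 5 → ℝ)) (X : (Fin 5 → ℝ) → (Fin 5 → ℝ)) : Prop :=
  Differentiable ℝ X ∧ (∀ p, fderiv ℝ X p = 0) ∧ (∀ γ ∈ G, ∀ p, X (γ p) = γ.linear (X p)) ∧
    ∀ p, g (X p) (X p) = 0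

theorem result : ∃ G g A, Crys G ∧ InvMetric G g ∧ InvEnd G g A ∧
    ∀ G' ≤ G, G'.relIndex G ≠ 0 → ∀ X, ParNull G' g X → X = 0 := by
  refine ⟨G, g, A, ⟨free, proper, _, isCompact_Icc, cocpt⟩,
    ⟨fun v w => by rw [g_ap, g_ap]; ring, g_nd, ?_⟩, ⟨fun h => ?_, fun v w => ?_, fun v => ?_, ?_⟩,
    fun G' _ hi X h => nofield G' hi X h.1 h.2.1 h.2.2.1 h.2.2.2⟩
  · rintro γ ⟨n, h, -⟩ v w
    rw [h]
    exact (Cn n).2.2.1 v w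
  · have := congrFun (congrArg (fun T => T ![1, 0, 0, 0, 0]) h) 2
    simp [A_ap] at this
  · simp [g_ap, A_ap]
    ring
  · ext i
    fin_cases i <;> simp [A_ap]
  · rintro γ ⟨n, h, -⟩ v
    rw [h]
    exact (Cn n).2.2.2 v

end Pool.Agent.Results.MP_4926dc_gt.No
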